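import Pool.Agent.PFB.StmtsG

/-!
# MP_e54c4c_gt, squad PFB, row G_FNG (helper32): assembly of section G
-/

set_option autoImplicit false

open Matrix Filter Topology

namespace Pool.Agent.PFB.H32

open Pool.Agent.PFS

theorem fng (bpx : BpxStmt) (sel : SelStmt) (mx1 : Mx1Stmt) (chi : ChiStmt) (abe : AbeStmt)
    (lin : LinStmt) (frz : FrzStmt) : FngStmt := by
  intro n C Γ hC K d T hT hD hne
  obtain ⟨w, hw, σ, hσ, lam, mu, hlam, hmu, h0, h1, hj⟩ := bpx n C Γ hC K d T hT hD hne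
  have hpes : IsPES C Γ w := hT.pes w hw
  have hlin : LinearIndependent ℝ w := lin n C hC.toPCone (Fin (K + 2)) w hpes.1
  have hf := (frz n C hC.toPCone (Fin (K + 2)) w hlin).1 hpes.1
  refine ⟨w, hw, hlin, hf.1, hf.2, ?_, ?_⟩
  · intro m w' hl' h2 h3 hsub
    have hp' : PES C w' := (frz n C hC.toPCone (Fin (m + 1)) w' hl').2 ⟨h2, h3⟩
    exact mx1 n C hC.toPCone (K + 2) (by omega) w hpes.1 (hT.ext w hw) (m + 1) w' hp' hsub
  · obtain ⟨χ, hχ, hχl⟩ := chi (K + 1)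
      {χ : Fin (K + 1 + 1) → ℝ | ∃ γ ∈ Γ, ∀ i, act γ (w i) = Real.exp (χ i) • w i} (by
        intro ℓ hℓ hs
        obtain ⟨γ, hγ, χ, h4, h5⟩ := sel n C Γ hC K d T hT hD w hw σ hσ lam mu hlam hmu h0 h1 hj
          ℓ hℓ hs
        exact ⟨χ, ⟨γ, hγ, h4⟩, h5⟩)
    choose γ hγ hγχ using hχ
    exact abe n C Γ hC (K + 1) w hpes γ χ hγ hγχ hχl

end Pool.Agent.PFB.H32
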